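import Pool.Agent.Helper25.HV.Defs
import Pool.Agent.Helper9.HL.Afe

/-!
# Large gaps, `λ = 13/5`, block AFE2: the smooth approximate functional equation with a nearer
second cut
-/

set_option autoImplicit false

namespace Pool.Agent.Helper5.HV

open Complex Set MeasureTheory Filter Topology
open scoped FourierTransform SchwartzMap ComplexConjugate
open Pool.Agent.Helper44.HL (chi)
open Pool.Agent.Helper33.HG (kapf kc Fd kF_Fd Fd_continuous Fd_dec norm_Fd kapf_eq_one
  kapf_zero_right kapf_nonneg kapf_le_one cut_exists isCut_Fd)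
open Pool.Agent.Helper69.HG (DP ze kF IsCut BF)
open Pool.Agent.HL9
open Pool.Agent.Helper25.HV (AFE2)

noncomputable section

/-- the cut between `2018/4032` and `2019/4032`: a translate -/
def F5 (ξ : ℝ) : ℂ := Fd (1 / 8064) ξ * Complex.exp (-(Complex.I * (ξ * (5 / 8064 : ℝ))))

theorem norm_F5 (ξ : ℝ) : ‖F5 ξ‖ = ‖Fd (1 / 8064) ξ‖ := by
  have : -(Complex.I * ((ξ : ℂ) * ((5 / 8064 : ℝ) : ℂ))) =
      (((-(ξ * (5 / 8064)) : ℝ)) : ℂ) * Complex.I := by
    push_cast; ring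
  rw [F5, norm_mul, this, Complex.norm_exp_ofReal_mul_I, mul_one]

theorem kF_F5 (v : ℝ) : kF F5 v = ((kapf (1 / 8064) (v - 5 / 8064) : ℝ) : ℂ) := by
  rw [← kF_Fd (by norm_num : (0:ℝ) < 1 / 8064), kF, kF]
  congr 1
  funext ξ
  rw [F5, mul_assoc, ← Complex.exp_add]
  congr 2
  push_cast
  ring

theorem isCut_F5 : IsCut (2018 / 4032) (2019 / 4032) F5 where
  cont := (Fd_continuous (by norm_num)).mul (by fun_prop)
  dec := fun k => by
    simp_rw [norm_F5]
    exact Fd_dec (by norm_num) k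
  one := fun v h1 h2 => by
    rw [kF_F5, kapf_eq_one (by norm_num) (by linarith) (by linarith), Complex.ofReal_one]
  zero := fun v h => by
    rw [kF_F5, kapf_zero_right (by norm_num) (by linarith), Complex.ofReal_zero]
  bd := fun v => by
    rw [kF_F5, Complex.norm_real, Real.norm_eq_abs, abs_of_nonneg (kapf_nonneg _ _)]
    exact kapf_le_one _ _

/-- the difference of the two sums -/
lemma diff_eq2 {d : ℝ} (hd2 : d ≤ 1 / 4032) {F F₂ : ℝ → ℂ} {hi : ℝ}
    (hF : IsCut (1 / 2 - d) (1 / 2 + d) F) (hF₂ : IsCut (2018 / 4032) hi F₂) {T : ℝ} (hT : 1 < T)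
    {w : ℝ} (hw : w ≤ 0) (t : ℝ) :
    ∑ n ∈ Finset.Icc 1 ⌊T⌋₊, kF F (Real.log n / Real.log T - w) * (n : ℂ) ^ (-hl t) -
      ∑ n ∈ Finset.Icc 1 ⌊T⌋₊, kF F (Real.log n / Real.log T) * (n : ℂ) ^ (-hl t) =
      ∫ ξ : ℝ, F ξ * ((cexp (-(I * (ξ * w))) - 1) * BF F₂ T ξ t) := by
  have hL : 0 < Real.log T := Real.log_pos hT
  rw [← Finset.sum_sub_distrib]
  have h1 : ∀ n ∈ Finset.Icc 1 ⌊T⌋₊,
      kF F (Real.log n / Real.log T - w) * (n : ℂ) ^ (-hl t) -
        kF F (Real.log n / Real.log T) * (n : ℂ) ^ (-hl t) =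
      ∫ ξ : ℝ, F ξ * ((cexp (-(I * (ξ * w))) - 1) *
        (kF F₂ (Real.log n / Real.log T) * (n : ℂ) ^ (I * (ξ / Real.log T)) *
          (n : ℂ) ^ (-hl t))) := by
    intro n hn
    have hn1 := (Finset.mem_Icc.mp hn).1
    have hv : 0 ≤ Real.log n / Real.log T :=
      div_nonneg (Real.log_nonneg (by exact_mod_cast hn1)) hL.le
    set v := Real.log n / Real.log T with hvdef
    have h2 : kF F (v - w) - kF F v = (kF F (v - w) - kF F v) * kF F₂ v := by
      rcases le_or_gt v (2018 / 4032) with h | h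
      · rw [hF₂.one v (by linarith) h, mul_one]
      · rw [hF.zero (v - w) (by linarith), hF.zero v (by linarith), sub_self, zero_mul]
    rw [← sub_mul, h2, kF_sub hF, mul_assoc, ← integral_mul_const]
    apply integral_congr_ae
    filter_upwards with ξ
    have e : (n : ℂ) ^ (I * (ξ / Real.log T)) = cexp (I * (ξ * v)) := by
      rw [← ofReal_div, cpow_xi hn1]
      congr 1
      rw [hvdef]
      push_cast
      ring
    rw [e]
    ring
  rw [Finset.sum_congr rfl h1, ← integral_finsetSum]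
  · apply integral_congr_ae
    filter_upwards with ξ
    rw [BF_eq, Finset.mul_sum, Finset.mul_sum]
  · intro n hn
    have hn1 := (Finset.mem_Icc.mp hn).1
    have hn0 : (n : ℂ) ≠ 0 := by
      have : n ≠ 0 := by omega
      exact_mod_cast this
    refine integrable_F_mul hF (C := 2 * ‖kF F₂ (Real.log n / Real.log T)‖) ?_ fun ξ => ?_
    · apply Continuous.mul (by fun_prop)
      apply Continuous.mul _ continuous_const
      apply Continuous.mul continuous_const
      apply Continuous.const_cpow _ (Or.inl hn0)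
      exact continuous_const.mul (Complex.continuous_ofReal.div_const _)
    · rw [norm_mul, norm_mul, norm_mul, norm_cpow_hl hn1, ← ofReal_div, norm_cpow_xi hn1, mul_one]
      have h3 : ‖cexp (-(I * (ξ * w))) - 1‖ ≤ 2 := by
        refine (norm_sub_le _ _).trans ?_
        have : -(I * ((ξ : ℂ) * w)) = I * ((ξ : ℂ) * ((-w : ℝ) : ℂ)) := by push_cast; ring
        rw [this, norm_exp_I_mul, norm_one]
        norm_num
      have h4 : (n : ℝ) ^ (-(1 / 2) : ℝ) ≤ 1 := by
        apply Real.rpow_le_one_of_one_le_of_nonpos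
        · exact_mod_cast hn1
        · norm_num
      have h5 : (0 : ℝ) ≤ (n : ℝ) ^ (-(1 / 2) : ℝ) := by positivity
      have h6 := norm_nonneg (kF F₂ (Real.log n / Real.log T))
      calc ‖cexp (-(I * (ξ * w))) - 1‖ * (‖kF F₂ (Real.log n / Real.log T)‖ *
            (n : ℝ) ^ (-(1 / 2) : ℝ)) ≤ 2 * (‖kF F₂ (Real.log n / Real.log T)‖ * 1) := by
            gcongr
        _ = _ := by ring

/-- the approximate functional equation, with any second cut -/
theorem afe_of_cut2 {d : ℝ} (hd : 0 < d) (hd2 : d ≤ 1 / 4032) {F₂ : ℝ → ℂ} {hi : ℝ}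
    (hF₂ : IsCut (2018 / 4032) hi F₂) : ∃ C T₀ : ℝ, 0 < C ∧ ∀ T : ℝ, T₀ ≤ T →
    ∀ t ∈ Set.Icc T (2 * T), ‖ze t‖ ≤ 2 * ‖BF (Fd d) T 0 t‖ +
      C / Real.log T * (∫ ξ : ℝ, |ξ| * ‖Fd d ξ‖ * ‖BF F₂ T ξ t‖) + C * T ^ (-(1 / 4) : ℝ) := by
  obtain ⟨C, hC, hcore⟩ := afe_core hd (hd2.trans (by norm_num))
  have hF := isCut_Fd hd
  refine ⟨C + 2, 10, by linarith, ?_⟩
  intro T hT t ht
  have hT0 : 0 < T := by linarith
  obtain ⟨ht1, ht2⟩ := ht
  have ht0 : 0 < t := by linarith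
  have hL0 : 0 < Real.log T := Real.log_pos (by linarith)
  set w : ℝ := (Real.log (t / (2 * Real.pi)) - Real.log T) / Real.log T with hw
  have hw1 : Real.log T * w = Real.log (t / (2 * Real.pi)) - Real.log T := by
    rw [hw]; field_simp
  have hpi : 3 < Real.pi := Real.pi_gt_three
  have hpi2 : Real.pi < 3.15 := Real.pi_lt_d2
  have e0 : Real.log (t / (2 * Real.pi)) - Real.log T = Real.log (t / (2 * Real.pi * T)) := by
    rw [← Real.log_div (by positivity) hT0.ne', div_div]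
  have hw0 : w ≤ 0 := by
    rw [hw, e0]
    apply div_nonpos_of_nonpos_of_nonneg _ hL0.le
    apply Real.log_nonpos (by positivity)
    rw [div_le_one (by positivity)]
    nlinarith
  have hw2 : -(2 / Real.log T) ≤ w := by
    rw [hw, e0, ← neg_div]
    apply div_le_div_of_nonneg_right _ hL0.le
    rw [Real.le_log_iff_exp_le (by positivity), le_div_iff₀ (by positivity)]
    have h1 : Real.exp (-2) * Real.exp 2 = 1 := by rw [← Real.exp_add]; norm_num
    have h2 : (6.3 : ℝ) < Real.exp 2 := by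
      have h3 : 2.7182818283 < Real.exp 1 := Real.exp_one_gt_d9
      have h4 : Real.exp 2 = Real.exp 1 * Real.exp 1 := by rw [← Real.exp_add]; norm_num
      rw [h4]
      nlinarith
    have h5 : 0 < Real.exp (-2) := Real.exp_pos _
    have h6 : Real.exp (-2) * (2 * Real.pi) ≤ 1 := by nlinarith
    calc Real.exp (-2) * (2 * Real.pi * T) = (Real.exp (-2) * (2 * Real.pi)) * T := by ring
      _ ≤ 1 * T := mul_le_mul_of_nonneg_right h6 hT0.le
      _ ≤ t := by linarith
  have h := hcore T hT t ⟨ht1, ht2⟩ w hw1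
  have ekc : ∀ v : ℝ, kc d v = kF (Fd d) v := fun v => (kF_Fd hd v).symm
  simp only [ekc] at h
  rw [← BF_zero, ← ze_eq] at h
  have hdiff := diff_eq2 hd2 hF hF₂ (by linarith : 1 < T) hw0 t
  rw [← BF_zero] at hdiff
  set Bw := ∑ n ∈ Finset.Icc 1 ⌊T⌋₊, kF (Fd d) (Real.log n / Real.log T - w) * (n : ℂ) ^ (-hl t)
  set J := ∫ ξ : ℝ, |ξ| * ‖Fd d ξ‖ * ‖BF F₂ T ξ t‖ with hJ
  have hint : Integrable fun ξ : ℝ => |ξ| * ‖Fd d ξ‖ * ‖BF F₂ T ξ t‖ := by
    have h1 := integrable_F hF 1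
    simp only [pow_one] at h1
    exact h1.mul_bdd (c := (⌊T⌋₊ : ℝ)) (continuous_BF F₂ T t).norm.aestronglyMeasurable
      (Eventually.of_forall fun ξ => by
        rw [norm_norm]
        exact norm_BF_le hF₂ T ξ t)
  have hd3 : ‖Bw - BF (Fd d) T 0 t‖ ≤ 2 / Real.log T * J := by
    rw [hdiff, hJ, ← integral_const_mul]
    refine norm_integral_le_of_norm_le (hint.const_mul _) (Eventually.of_forall fun ξ => ?_)
    rw [norm_mul, norm_mul]
    have h1 : ‖cexp (-(I * (ξ * w))) - 1‖ ≤ |ξ| * (2 / Real.log T) := by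
      have h2 := Real.norm_exp_I_mul_ofReal_sub_one_le (x := -(ξ * w))
      have e : I * ((-(ξ * w) : ℝ) : ℂ) = -(I * (ξ * w)) := by push_cast; ring
      rw [e] at h2
      refine h2.trans ?_
      rw [Real.norm_eq_abs, abs_neg, abs_mul]
      apply mul_le_mul_of_nonneg_left _ (abs_nonneg _)
      rw [abs_of_nonpos hw0]
      linarith
    calc ‖Fd d ξ‖ * (‖cexp (-(I * (ξ * w))) - 1‖ * ‖BF F₂ T ξ t‖) ≤
          ‖Fd d ξ‖ * ((|ξ| * (2 / Real.log T)) * ‖BF F₂ T ξ t‖) := by gcongr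
      _ = _ := by ring
  have hJ0 : 0 ≤ J := integral_nonneg fun ξ => by positivity
  have hX : T ^ (-(1 / 2) : ℝ) ≤ T ^ (-(1 / 4) : ℝ) :=
    Real.rpow_le_rpow_of_exponent_le (by linarith) (by norm_num)
  have hX0 : 0 < T ^ (-(1 / 4) : ℝ) := Real.rpow_pos_of_pos hT0 _
  have n1 : ‖chi t * conj Bw‖ = ‖Bw‖ := by
    rw [norm_mul, Pool.Agent.Helper44.HL.norm_chi, one_mul, RCLike.norm_conj]
  have n2 : ‖Bw‖ ≤ ‖BF (Fd d) T 0 t‖ + 2 / Real.log T * J := by
    have : Bw = BF (Fd d) T 0 t + (Bw - BF (Fd d) T 0 t) := by ring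
    rw [this]
    exact (norm_add_le _ _).trans (add_le_add le_rfl hd3)
  have n3 : ‖ze t‖ ≤ ‖ze t - BF (Fd d) T 0 t - chi t * conj Bw‖ + ‖BF (Fd d) T 0 t‖ +
      ‖chi t * conj Bw‖ := by
    have : ze t = (ze t - BF (Fd d) T 0 t - chi t * conj Bw) + BF (Fd d) T 0 t +
      chi t * conj Bw := by ring
    conv_lhs => rw [this]
    exact (norm_add_le _ _).trans (add_le_add (norm_add_le _ _) le_rfl)
  rw [n1] at n3
  have n4 : C * T ^ (-(1 / 2) : ℝ) ≤ (C + 2) * T ^ (-(1 / 4) : ℝ) := by nlinarith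
  have n5 : 2 / Real.log T * J ≤ (C + 2) / Real.log T * J := by
    apply mul_le_mul_of_nonneg_right _ hJ0
    exact div_le_div_of_nonneg_right (by linarith) hL0.le
  linarith

/-- **Block AFE2** -/
theorem afe2 : AFE2 := by
  intro c hc
  obtain ⟨d, hd, -, hd3, h1, -, h3⟩ := cut_exists (min c (1 / 4032)) (lt_min hc (by norm_num))
  have hd4 : d ≤ 1 / 4032 := hd3.trans (min_le_right _ _)
  exact ⟨d, hd, hd4, hd3.trans (min_le_left _ _), Fd d, F5, h1, isCut_F5,
    h3.trans (min_le_left _ _), afe_of_cut2 hd hd4 isCut_F5⟩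

end

end Pool.Agent.Helper5.HV
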